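import Mathlib
import Pool.Agent.TH297.PK.I
set_option autoImplicit false

/-!
# Ultralinear (finite-turn) context-free languages satisfying `P_k` are regular, for every `k ≥ 1`

Here `k` is arbitrary and no finiteness of Burnside groups is used (for `k ≤ 4`, or when all finitely
generated groups of exponent `k` are finite, the statement for all context-free languages is in
`SmallExponents`).

Outline of the proof (files `Pool.Agent.TH297.PK.A` to `I`).

* `A`: the spine graph of a context-free grammar; a finite colouring of its closed walks such that
  walks of equal colour may be exchanged (one on the left, one on the right) gives finitely many left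
  quotients.
* `B`, `C`: an ultralinear language is read by two heads: one reads a word from the left, the other
  one from the right, with finitely many states, and the word is cut into boundedly many pieces on
  each of which both heads move linearly (`SEc`, `Ex`), closed under finite unions, products and
  linear rules.
* `D`: pumping with `P_k` of a walk `l` through which one of the heads passes while the other head is
  stationary, or moves along a periodic word.
* `E`: finitely many states give finite monoids; minimal idempotents `s` (for reading with one head
  stationary) and `τ` (for reading against a power of `s`).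
* `F`, `G`: a long product `s^{n_1} τ s^{n_2} τ ⋯` with rapidly increasing exponents, trivial modulo
  `k`-th powers, is inserted; in any reading one of the heads is stationary during some `s`, or
  inside one `s`-block during some `τ`, and this factor can be changed.
* `H`: the finite colouring of closed walks.
* `I`: ultralinear grammars.
-/

namespace Pool.Agent.Results.MP_5ca50a_lc.UltralinearLanguages

/-- Condition `P_k`: every iterative pair `(x, u, y, v, z)` of `L` has
`x u^{ki} y v^{kj} z ∈ L` for all `i, j ≥ 0`. -/
def CondP {α : Type} (k : ℕ) (L : Language α) : Prop :=
  ∀ x u y v z : List α, u ++ v ≠ [] →
    (∀ n : ℕ, 1 ≤ n →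
      x ++ (List.replicate n u).flatten ++ y ++ (List.replicate n v).flatten ++ z ∈ L) →
    ∀ i j : ℕ,
      x ++ (List.replicate (k * i) u).flatten ++ y ++
        (List.replicate (k * j) v).flatten ++ z ∈ L

/-- Ultralinear grammars (Ginsburg and Spanier): the nonterminals have ranks such that every rule
`A → w` is either such that all nonterminals in `w` have rank smaller than that of `A`, or of the
form `A → u B v` with terminal words `u`, `v` and a nonterminal `B` whose rank is at most that
of `A`. -/
def UltralinearGrammar {α : Type} (g : ContextFreeGrammar α) : Prop :=
  ∃ rank : g.NT → ℕ, ∀ r ∈ g.rules,
    (∀ B, Symbol.nonterminal B ∈ r.output → rank B < rank r.input) ∨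
    ∃ (u v : List α) (B : g.NT), r.output =
      u.map Symbol.terminal ++ Symbol.nonterminal B :: v.map Symbol.terminal ∧
      rank B ≤ rank r.input

/-- For every `k ≥ 1`, every ultralinear context-free language satisfying `P_k` is regular. -/
theorem result :
    ∀ k : ℕ, 1 ≤ k → ∀ (α : Type) (L : Language α),
      (∃ g : ContextFreeGrammar α, UltralinearGrammar g ∧ g.language = L) →
      CondP k L → ∃ (σ : Type) (_ : Fintype σ) (M : DFA α σ), M.accepts = L := by
  intro k hk α L hL hP
  obtain ⟨g, hg, rfl⟩ := hL
  exact Pool.Agent.TH297.PK.regular_of_ultralinear hk hg hP

end Pool.Agent.Results.MP_5ca50a_lc.UltralinearLanguages
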